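import Pool.Agent.H490Z.DiracMain

set_option autoImplicit false

namespace Pool.Agent.Results.MP_e06427_co.ANotCritical

open Pool.Agent.H490Z.Dirac

/-- Dirac's generalisation of the Hajos construction does not always give a critical graph. -/
theorem result :
    ¬ ∀ (k h : ℕ), 4 ≤ k → 1 ≤ h → h ≤ k - 2 →
      ∀ (V₁ V₂ : Type) [Fintype V₁] [Fintype V₂] [DecidableEq V₁] [DecidableEq V₂]
        (G₁ : SimpleGraph V₁) (G₂ : SimpleGraph V₂), IsCritical k G₁ → IsCritical k G₂ →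
      ∀ (H₁ : Finset V₁) (H₂ : Finset V₂), G₁.IsNClique h H₁ → G₂.IsNClique h H₂ →
      ∀ (σ : H₁ ≃ H₂) (x₁ : H₁) (x₂ : H₂), σ x₁ = x₂ →
      ∀ (y₁ : V₁) (y₂ : V₂), y₁ ∉ H₁ → y₂ ∉ H₂ → G₁.Adj x₁ y₁ → G₂.Adj x₂ y₂ →
        IsCritical k (dirac G₁ G₂ σ x₁ y₁ x₂ y₂) := by
  intro H
  exact not_crit (H 5 3 (by norm_num) (by norm_num) (by norm_num) (Fin 10) (Fin 10) G10 G10 crit crit
    H3 H3 clique clique (Equiv.refl H3) ⟨0, by decide⟩ ⟨0, by decide⟩ rfl 8 8 (by decide)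
    (by decide) (by decide) (by decide))

end Pool.Agent.Results.MP_e06427_co.ANotCritical
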